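import Pool.Agent.H313.GE.Kum

/-!
# Jordan blocks of Frobenius on abelian coverings

Let `k` be a field with `q` elements, `Z` the subset of projective space over `k` where the forms `G i`
vanish, `ℓ` a prime, `F i` (`i < m`) forms, and `χ i` characters of the multiplicative group of `k` of
the orders `ℓ ^ (a i)`, so that `ℓ ^ (a i)` divides `q - 1`. We assume that `ℓ ^ (a i)` divides the
degree of `F i`. Let `X` be the fibre product over `Z` of the cyclic coverings
`w_i ^ (ℓ ^ (a i)) = F i`, a covering of `Z` with the group `∏ μ_(ℓ ^ (a i))`. It is a complete variety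
which can be singular. For `j = (j i)`, `0 ≤ j i < ℓ ^ (a i)`, let `I(j)` be the set of the `i` with
`j i ≠ 0`, let `U_I` be the open subset of `Z` where the `F i`, `i ∈ I`, are not zero, and let `L_j` be
the tensor product over `i ∈ I(j)` of the Kummer sheaves of the characters `χ i ^ (j i)` for `F i` on
`U_(I(j))`. The direct image of the constant sheaf of `X` is the direct sum of the extensions by zero of
the `L_j`. So the cohomology of `X` of degree `n` is the direct sum over `j` of the
`U j = H_c ^ n (U_(I(j)), L_j)`, with the endomorphisms `Φ j` given by the Frobenius; for `I(j)` empty,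
`U j = H ^ n (Z)`. We assume that for `I(j)` not empty the cohomology with compact support of `L_j` is
zero outside the degree `n`. Then `det (1 - T Φ j)` is `kummerProduct` for even `n` and its inverse for
odd `n`, by Grothendieck, and `H ^ i (X) = H ^ i (Z)` for `i ≠ n`. The assumption holds, for instance, if
`Z` is smooth of pure dimension `n`, the forms `F i` are of positive degree, and the divisors `F i = 0`
are sums of components with multiplicities prime to `ℓ`, which are smooth with normal crossings all
together: then the `L_j` are ramified along all the components of the complement of the affine variety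
`U_(I(j))`, so the cohomology with and without compact support is the same. If the `F i = 0` are smooth
then `X` is smooth.
-/

set_option autoImplicit false
set_option linter.all false
set_option maxHeartbeats 4000000

open Polynomial NumberField Module

namespace Pool.Agent.Results.MP_b685ef_ag.AbelianCoverings

open Pool.Agent.H313.GE.Pts

/-- The set of the `i` with `j i ≠ 0`. -/
def supp {m : ℕ} {N : Fin m → ℕ} (j : ∀ i, Fin (N i)) : Finset (Fin m) :=
  Finset.univ.filter fun i => (j i : ℕ) ≠ 0

/-- The Jordan blocks of `f` have the size `e` at most: the kernels of the powers of `f - α` of the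
exponents `e` and `e + 1` are equal, for all `α`. For `e = 1` this means that `f` is diagonalisable, over
an algebraically closed field. -/
def JordanBlocksLE {E V : Type} [Field E] [AddCommGroup V] [Module E V] (f : Module.End E V)
    (e : ℕ) : Prop :=
  ∀ (α : E) (x : V), ((f - algebraMap E (Module.End E V) α) ^ (e + 1)) x = 0 →
    ((f - algebraMap E (Module.End E V) α) ^ e) x = 0

/-- **The Jordan blocks of Frobenius on abelian coverings of `ℓ`-power exponent.**

For every nonempty set `I` which is the support of a `j`, let the reduction modulo `ℓ` of the inverse of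
the zeta function of `U_I` (for even `n`; of the zeta function for odd `n`) be a polynomial `H` over the
field with `ℓ` elements which divides `S ^ e` for a squarefree polynomial `S`, and of which the degree
is the dimension of `U j` (the absolute value of the Euler characteristic of `U_I`; this is always the
degree, since the eigenvalues of Frobenius are units at `ℓ`). If the Jordan blocks of Frobenius on
`H ^ n (Z)` have the size `e` at most, then this holds for the Frobenius on `H ^ n (X)`. In particular
(`e = 1`): if the reductions are squarefree and the Frobenius is semisimple on `H ^ n (Z)` then it is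
semisimple on `H ^ n (X)`. The condition concerns only the numbers of points of the `U_I` over the
extensions of `k`, modulo `ℓ`; it is the same for all coverings with these forms, for all exponents
`a i` and for all twists. -/
theorem result (ℓ : ℕ) (hℓ : ℓ.Prime) (k : Type) [Field k] [Finite k]
    (K : Type) [Field K] [NumberField K] (M s m : ℕ)
    (G : Fin s → MvPolynomial (Fin (M + 1)) k) (F : Fin m → MvPolynomial (Fin (M + 1)) k)
    (a : Fin m → ℕ) (χ : Fin m → MulChar k (𝓞 K)) (hχ : ∀ i, orderOf (χ i) = ℓ ^ a i) (n : ℕ)
    (E : Type) [Field E] [CharZero E] [IsAlgClosed E] (φ : 𝓞 K →+* E)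
    (U : (∀ i, Fin (ℓ ^ a i)) → Type) [∀ j, AddCommGroup (U j)] [∀ j, Module E (U j)]
    [∀ j, FiniteDimensional E (U j)] (Φ : ∀ j, Module.End E (U j))
    (hΦ : ∀ j, (supp j).Nonempty → ∃ D : (𝓞 K)[X], IsDet φ (Φ j) D ∧
      IsSigned n (kummerProduct G F (fun i => χ i ^ (j i : ℕ)) (supp j)) D)
    (e : ℕ) (h0 : ∀ j, ¬ (supp j).Nonempty → JordanBlocksLE (Φ j) e)
    (hI : ∀ j, (supp j).Nonempty → ∃ H S : (ZMod ℓ)[X], Squarefree S ∧ H ∣ S ^ e ∧
      IsSigned n (PowerSeries.map (Int.castRingHom (ZMod ℓ)) (openZetaInv G F (supp j))) H ∧
      H.natDegree = finrank E (U j)) :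
    JordanBlocksLE (LinearMap.pi fun j => Φ j ∘ₗ LinearMap.proj j : Module.End E (∀ j, U j)) e := by
  have hF : Fact ℓ.Prime := ⟨hℓ⟩
  refine Pool.Agent.H313.GE.blocks_pi Φ _ (fun x j => rfl) e fun j => ?_
  by_cases hj : (supp j).Nonempty
  · obtain ⟨D, hD, hDs⟩ := hΦ j hj
    obtain ⟨H, S, hS, hHS, hH, hdeg⟩ := hI j hj
    refine kummer_blocks G F (fun i => χ i ^ (j i : ℕ)) (supp j) a ?_ hDs φ (Φ j) hD hH hS hHS hdeg
    intro i _
    have h1 : χ i ^ ℓ ^ a i = 1 := by rw [← hχ i, pow_orderOf_eq_one]
    rw [← pow_mul, mul_comm, pow_mul, h1, one_pow]
  · exact h0 j hj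

end Pool.Agent.Results.MP_b685ef_ag.AbelianCoverings
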