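import Pool.Agent.X306.JB.F

/-!
# A zero-one law for the semisimplicity of Frobenius on the cohomology of complete varieties

Let `k` be a finite field and `ℓ` a prime number different from its characteristic. For a complete variety `X` over `k`
(a proper scheme over `k`, which may be singular) let `b(X)` be its total Betti number and let `J(X)` be the number of the
Jordan blocks of the Frobenius on the `ℓ`-adic cohomology `⨁ H^i(X ⊗ k̄, ℚ̄_ℓ)` of all degrees. Equivalently `J(X)` is the
dimension of the largest subspace on which the Frobenius acts semisimply (the sum of the eigenspaces). So `J(X) = b(X)` if
and only if the Frobenius acts semisimply on all `H^i(X ⊗ k̄, ℚ̄_ℓ)`, which is the assertion of the problem for `X`.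

**Theorem.** (1) Either the Frobenius acts semisimply on all the cohomology groups of `X`, or for ALL complete varieties
`Y` over `k` and all `n`

  `J(Y × X^n) ≤ √(b(X) / (2 (n + 1))) · b(Y × X^n)`.

So if for one `Y` and one `n` (with `b(Y) ≠ 0`) a larger part of the cohomology of `Y × X^n` is semisimple, for example
one half of it for some `n ≥ 2 b(X)`, then the Frobenius acts semisimply on the cohomology of `X`. The bound is explicit,
does not depend on `Y` and tends to zero for `n → ∞`.

(2) Let `C` be a class of complete varieties which is closed under products and contains a curve, for example all complete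
varieties, or all smooth projective ones. The Frobenius acts semisimply on the cohomology of all varieties in `C` if (and
only if) for some function `f` with `limsup f(d) √d = ∞`, for example a positive constant or `(log d) / √d`,

  `J(Z) ≥ f(dim Z) · b(Z)`   for all `Z ∈ C`.

So the conjecture of the problem (for the finite field `k`) is equivalent to the much weaker looking statement that there
is `ε > 0` such that for all complete varieties `Z` over `k` at least the part `ε` of the cohomology is semisimple.

The data `T : Cohomology k E` are the cohomology groups `H^i(X ⊗ k̄, ℚ̄_ℓ)` (`E = ℚ̄_ℓ`) with the Frobenius, and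
`T.IsCohomology` collects the known properties: they are finite-dimensional, the Frobenius is injective, the Künneth formula
holds for complete varieties, and the dimension of a product is the sum of the dimensions.

## The proof

Let `F` be the Frobenius on the cohomology `V` of `X`, `b = dim V`. If `F` is not diagonalizable, there is a stable
subspace of dimension two on which `F` is a multiple of the unipotent block `u` of size two, and the quotient has a stable
flag. For each `G` let `s(G)` be the dimension of the sum of the eigenspaces; it is subadditive for exact sequences. So the
numbers `a(n, m) = s(F_Y ⊗ F^{⊗ n} ⊗ u^{⊗ m})` satisfy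

  `a(n + 1, m) ≤ a(n, m + 1) + (b - 2) a(n, m)`,   `a(0, m) ≤ dim(Y) s(u^{⊗ m})`.

The number `s(u^{⊗ m})` is at most the central binomial coefficient `(m choose m/2)`: one realises the block of size `r` by
the shift `p(x) ↦ p(x + 1)` on the polynomials of degree less than `r`; the exact sequence (`q ↦ (y - x) q(x)`, restriction
to the diagonal)

  `0 → P_{r-1} → P_r ⊗ ⟨1, y⟩ → P_{r+1} → 0`

shows that `s(u^{⊗ m})` is at most the number of walks of length `m` on the positive integers from `1`. The sum over the
binomial distribution is estimated by the inequality of Cauchy and Schwarz. (The numerical bound is the one of helper311 in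
`MP_855f4c_ag.ZeroOneLaw`, a law for the monodromy-weight conjecture; there the weights are additive, here they are
replaced by the Jordan blocks.)
-/

set_option autoImplicit false

open Filter

universe u v

namespace Pool.Agent.Results.MP_b685ef_ag.JordanBlockLaw

open Pool.Agent.X306.JB

/-- **The zero-one law for the semisimplicity of Frobenius.** -/
theorem result {k : Type u} [Field k] {E : Type v} [Field E] [IsAlgClosed E] [CharZero E]
    (T : Cohomology k E) (hT : T.IsCohomology) :
    (∀ X : Complete k, T.Semisimple X ↔ T.blocks X = T.betti X) ∧
    -- the law
    (∀ X : Complete k, T.Semisimple X ∨ T.FewBlocks X) ∧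
    -- the criterion
    ∀ C : Set (Complete k), T.IsProductClass C → ((∀ X ∈ C, T.Semisimple X) ↔ T.ManyBlocks C) := by
  refine ⟨fun X => Cohomology.semisimple_iff_blocks hT X, fun X => ?_, fun C ⟨hC, Z, h1, h2, h3⟩ =>
    Cohomology.class_iff hT C hC Z h1 h2 h3⟩
  by_cases h : T.Semisimple X
  · exact Or.inl h
  · exact Or.inr fun Y n => Cohomology.law hT X h Y n

end Pool.Agent.Results.MP_b685ef_ag.JordanBlockLaw
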