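import Pool.Agent.X320.FS.Mixed2

/-!
# Frobenius is semisimple on the cohomology of almost all reductions of a complete variety

Let `X` be a complete variety over a number field `K`, which may be singular and reducible. By a smooth proper
hypercovering `X_• → X` the cohomology `V_ℓ = H^i(X ⊗ K̄, ℚ_ℓ)` has a weight filtration by stable subspaces whose
graded pieces of weight `w ≤ i` are subquotients of `A_w = H^w(X_(i-w) ⊗ K̄, ℚ_ℓ)`, where `X_j` is smooth and
projective. The `A_w` are polarized pure systems of weight `w` (structure `PureSystem`). By constructibility and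
proper base change the Frobenius elements at all but finitely many places `v` act on `V_ℓ` like the Frobenius of
the residue field on the `ℓ`-adic cohomology of the complete variety `X_v`, the reduction of `X`.

**Theorem.** There is a set of places of `K` of density one such that for all `v` in this set, and all `ℓ` prime to
`v` for which each `A_w` is semisimple as a Galois representation or has no isotropic relation (that is, for every
`d > 0` with `2 d ≤ dim A_w` and `w d [K : ℚ]` even there is a prime number `p ≠ ℓ` which splits completely in `K`,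
such that the Frobenius polynomials of `A_w` at the places above `p` have no isotropic relation of size `d`),
the Frobenius elements at `v` act semisimply on each representation `V_ℓ` of the Galois group which has a
filtration whose graded pieces embed in the `A_w`, for different weights `w`. (If `A_w` is semisimple
the subquotients of `A_w` embed in `A_w`.)

The representation `V_ℓ` itself is not semisimple in general, and it may be ramified at `v`.

Proof. Let `r(x)` be the number of different eigenvalues of `x` in the Galois group on `A_w`. If `x` is a local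
maximum of `r` and `A_w` is semisimple then `x` is semisimple: the derivative of the coefficients of the radical of
the characteristic polynomial gives that the nilpotent part of the logarithm of a power of `x` is orthogonal
to the Lie algebra for the trace form. On the cosets of a suitable open subgroup, which is the same for all `ℓ` by the
theorem of Chebotarev, the function `r` attains its maximum outside a set of measure zero. The eigenvalues on
the graded pieces of different weights are different.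
-/

set_option autoImplicit false

namespace Pool.Agent.Results.MP_b685ef_ag.MixedReductions

open NumberField IsDedekindDomain Polynomial Matrix Filter Topology
open Pool.Agent.W401.Cheb (GK IsFrob IsInert dens)

/-- A polarized pure system of weight `w` and dimension `n` over the number field `K`: continuous representations
`ρ ℓ` of the Galois group of `K` over `ℚ_ℓ` for all prime numbers `ℓ`, polynomials `P v` with integral coefficients
for the places `v` outside the finite set `S`, such that for `v ∉ S` and `v ∤ ℓ`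
* the inertia groups at `v` act trivially,
* the inverse of a Frobenius element at `v` has characteristic polynomial `P v`,
* the complex roots of `P v` have absolute value `N(v) ^ (w / 2)`,
and nondegenerate symmetric or alternating forms with Gram matrix `J ℓ` for which the Galois group acts by
similitudes with factor `χ ℓ`, equal to `N(v) ^ w` for the inverse of a Frobenius element. -/
structure PureSystem (K : Type) [Field K] [NumberField K] (w n : ℕ) where
  S : Set (HeightOneSpectrum (𝓞 K))
  finite : S.Finite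
  P : HeightOneSpectrum (𝓞 K) → ℤ[X]
  ρ : ∀ ℓ : ℕ, [Fact ℓ.Prime] → GK K →* GL (Fin n) ℚ_[ℓ]
  J : ∀ ℓ : ℕ, [Fact ℓ.Prime] → Matrix (Fin n) (Fin n) ℚ_[ℓ]
  χ : ∀ ℓ : ℕ, [Fact ℓ.Prime] → GK K → ℚ_[ℓ]
  continuous : ∀ (ℓ : ℕ) [Fact ℓ.Prime], Continuous (ρ ℓ)
  unramified : ∀ (ℓ : ℕ) [Fact ℓ.Prime], ∀ v ∉ S, (ℓ : 𝓞 K) ∉ v.asIdeal → ∀ σ, IsInert v σ → ρ ℓ σ = 1
  charpoly : ∀ (ℓ : ℕ) [Fact ℓ.Prime], ∀ v ∉ S, (ℓ : 𝓞 K) ∉ v.asIdeal → ∀ σ, IsFrob v σ →
    (ρ ℓ σ⁻¹ : Matrix (Fin n) (Fin n) ℚ_[ℓ]).charpoly = (P v).map (algebraMap ℤ ℚ_[ℓ])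
  weight : ∀ v ∉ S, ∀ z : ℂ, aeval z (P v) = 0 → ‖z‖ ^ 2 = (Ideal.absNorm v.asIdeal : ℝ) ^ w
  nondegenerate : ∀ (ℓ : ℕ) [Fact ℓ.Prime], (J ℓ).det ≠ 0
  symm_or_alt : ∀ (ℓ : ℕ) [Fact ℓ.Prime], (J ℓ)ᵀ = J ℓ ∨ (J ℓ)ᵀ = -J ℓ
  similitude : ∀ (ℓ : ℕ) [Fact ℓ.Prime] (g : GK K), (ρ ℓ g : Matrix (Fin n) (Fin n) ℚ_[ℓ])ᵀ * J ℓ *
    (ρ ℓ g : Matrix (Fin n) (Fin n) ℚ_[ℓ]) = χ ℓ g • J ℓ
  factor : ∀ (ℓ : ℕ) [Fact ℓ.Prime], ∀ v ∉ S, (ℓ : 𝓞 K) ∉ v.asIdeal → ∀ σ, IsFrob v σ →
    χ ℓ σ⁻¹ = (Ideal.absNorm v.asIdeal : ℚ_[ℓ]) ^ w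

/-- the subspace `U` is stable under the representation `ρ` -/
def Stable {Γ F : Type} [Group Γ] [Field F] {n : ℕ} (ρ : Γ →* GL (Fin n) F) (U : Submodule F (Fin n → F)) : Prop :=
  ∀ g, ∀ x ∈ U, (ρ g : Matrix (Fin n) (Fin n) F) *ᵥ x ∈ U

/-- the representation `ρ` is semisimple: every stable subspace has a stable complement -/
def SemisimpleRep {Γ F : Type} [Group Γ] [Field F] {n : ℕ} (ρ : Γ →* GL (Fin n) F) : Prop :=
  ∀ U, Stable ρ U → ∃ U', Stable ρ U' ∧ IsCompl U U'

/-- An isotropic relation of size `d`, rational over `F`, between the roots in `Ω` of the polynomials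
`P i`: monic polynomials `Q i` of degree `d` over `F` such that the roots `z` of `Q i` together with
the numbers `s / z` are (with multiplicities) among the roots of `P i`, and such that the product of
all the roots of all the `Q i` is a square root of `s ^ (d * m)` times a root of unity. -/
def IsotropicRelation (F Ω : Type) [Field F] [Field Ω] [Algebra F Ω] {m : ℕ} (P : Fin m → ℤ[X])
    (s d : ℕ) : Prop :=
  ∃ (Q : Fin m → F[X]) (N : ℕ), 0 < N ∧
    (∀ i, (Q i).Monic ∧ (Q i).natDegree = d ∧
      (Q i).aroots Ω + ((Q i).aroots Ω).map (fun z => (s : Ω) / z) ≤ (P i).aroots Ω) ∧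
    (∏ i, ((Q i).aroots Ω).prod) ^ (2 * N) = (s : Ω) ^ (d * m * N)

/-- For every `d > 0` with `2 d ≤ n` and with `w d [K : ℚ]` even there is a prime number `p ≠ ℓ` which splits
completely in `K` into places `v i ∉ S`, such that the polynomials `P (v i)` have no isotropic relation of size `d`
over the complex numbers, or none which is rational over `ℚ_ℓ`. -/
def NoIsotropicRelation {K : Type} [Field K] [NumberField K] {w n : ℕ} (A : PureSystem K w n) (ℓ : ℕ)
    [Fact ℓ.Prime] : Prop :=
  ∀ d : ℕ, 0 < d → 2 * d ≤ n → Even (w * d * Module.finrank ℚ K) →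
    ∃ (p : ℕ) (v : Fin (Module.finrank ℚ K) → HeightOneSpectrum (𝓞 K)),
      p.Prime ∧ p ≠ ℓ ∧ Function.Injective v ∧ (∀ i, (p : 𝓞 K) ∈ (v i).asIdeal ∧ v i ∉ A.S) ∧
      ¬ (IsotropicRelation ℂ ℂ (fun i => A.P (v i)) (p ^ w) d ∧
        IsotropicRelation ℚ_[ℓ] (AlgebraicClosure ℚ_[ℓ]) (fun i => A.P (v i)) (p ^ w) d)

/-- the `ℓ`-adic representation of the pure system is semisimple, or the weight is positive and there are no isotropic
relations (which one can check at one prime number `p`) -/
def Admissible {K : Type} [Field K] [NumberField K] {w n : ℕ} (A : PureSystem K w n) (ℓ : ℕ) [Fact ℓ.Prime] : Prop :=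
  SemisimpleRep (A.ρ ℓ) ∨ 0 < w ∧ NoIsotropicRelation A ℓ

/-- The representation `r` of `Γ` on `V` has a filtration `0 = W 0 ≤ W 1 ≤ ... ≤ W m = V` by stable subspaces such that
`W (j + 1) / W j` embeds in the representation `ρ j`: there is a linear map `φ j` on `V` which is
equivariant on `W (j + 1)` and has the kernel `W j` on `W (j + 1)`. -/
def HasFiltration {Γ F V : Type} [Group Γ] [Field F] [AddCommGroup V] [Module F V] (r : Γ →* Module.End F V) {m : ℕ}
    {n : Fin m → ℕ} (ρ : ∀ j, Γ →* GL (Fin (n j)) F) : Prop :=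
  ∃ (W : Fin (m + 1) → Submodule F V) (φ : ∀ j : Fin m, V →ₗ[F] (Fin (n j) → F)),
    W 0 = ⊥ ∧ W (Fin.last m) = ⊤ ∧ (∀ j : Fin m, W j.castSucc ≤ W j.succ) ∧ (∀ j g, ∀ x ∈ W j, r g x ∈ W j) ∧
    ∀ j : Fin m, ∀ x ∈ W j.succ, (φ j x = 0 ↔ x ∈ W j.castSucc) ∧
      ∀ g, φ j (r g x) = (ρ j g : Matrix (Fin (n j)) (Fin (n j)) F) *ᵥ φ j x

/-- Let `A j` be polarized pure systems of different weights `w j`. The set of the places `v` such that for all `ℓ`
prime to `v` for which all the `A j` are admissible, the inverse of every Frobenius element at `v` acts semisimply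
(the minimal polynomial has no repeated roots) on every finite dimensional representation `V` of the
Galois group over `ℚ_ℓ` which has a filtration with graded pieces in the `A j`, has natural density one. -/
theorem result (K : Type) [Field K] [NumberField K] (m : ℕ) (w n : Fin m → ℕ) (hw : Function.Injective w)
    (A : ∀ j, PureSystem K (w j) (n j)) :
    Tendsto (dens fun v : HeightOneSpectrum (𝓞 K) => ∀ (ℓ : ℕ) [Fact ℓ.Prime], (ℓ : 𝓞 K) ∉ v.asIdeal →
      (∀ j, Admissible (A j) ℓ) → ∀ (V : Type) [AddCommGroup V] [Module ℚ_[ℓ] V] [FiniteDimensional ℚ_[ℓ] V]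
        (r : GK K →* Module.End ℚ_[ℓ] V), HasFiltration r (fun j => (A j).ρ ℓ) →
          ∀ σ, IsFrob v σ → (minpoly ℚ_[ℓ] (r σ⁻¹)).Separable) atTop (𝓝 1) := by
  have hall := Pool.Agent.X320.FS.dens_one_all fun j : Fin m =>
    Pool.Agent.X320.FS.compat_ss (A j).finite (A j).P (A j).ρ (A j).continuous (A j).unramified (A j).charpoly
  refine Pool.Agent.X320.FS.dens_one_remove ∅ Set.finite_empty ?_ hall
  rintro v hv -
  intro ℓ hℓ hvℓ hadm V _ _ _ r hfil σ hσ
  have hss : ∀ j, Pool.Agent.X320.DS.Semisimple ((A j).ρ ℓ) := by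
    intro j
    rcases hadm j with h | ⟨hw, hno⟩
    · exact h
    · refine Pool.Agent.X320.FS.semisimple_pol ((A j).ρ ℓ) ((A j).continuous ℓ) ((A j).J ℓ) ((A j).nondegenerate ℓ)
        ((A j).symm_or_alt ℓ) ((A j).χ ℓ) ((A j).similitude ℓ) hw
        (S := (A j).S ∪ {v : HeightOneSpectrum (𝓞 K) | (ℓ : 𝓞 K) ∈ v.asIdeal})
        ((A j).finite.union (Pool.Agent.X320.DS.finite_above hℓ.out.ne_zero)) (A j).P ?_ ?_
      · intro u hu
        have huS : u ∉ (A j).S := fun h => hu (Or.inl h)
        have huℓ : (ℓ : 𝓞 K) ∉ u.asIdeal := fun h => hu (Or.inr h)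
        refine ⟨?_, (A j).weight u huS, fun τ hτ => ⟨(A j).charpoly ℓ u huS huℓ τ hτ, (A j).factor ℓ u huS huℓ τ hτ⟩⟩
        obtain ⟨τ, hτ⟩ := Pool.Agent.W401.Frob.exists_frob u
        have h1 := (A j).charpoly ℓ u huS huℓ τ hτ
        have h2 := Matrix.charpoly_monic ((A j).ρ ℓ τ⁻¹ : Matrix (Fin (n j)) (Fin (n j)) ℚ_[ℓ])
        rw [h1] at h2
        exact Polynomial.monic_of_injective (algebraMap ℤ ℚ_[ℓ]).injective_int h2
      · intro d h1 h2 h3
        obtain ⟨p, u, hp, hpℓ, hu, hpu, hnot⟩ := hno d h1 h2 h3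
        refine ⟨p, u, hp, hu, fun i => ⟨(hpu i).1, ?_⟩, hnot⟩
        rintro (h | h)
        · exact (hpu i).2 h
        · refine (u i).isPrime.ne_top ?_
          rw [Ideal.eq_top_iff_one]
          have hcop : Nat.Coprime p ℓ := (Nat.coprime_primes hp hℓ.out).2 hpℓ
          have h4 := Nat.gcd_eq_gcd_ab p ℓ
          rw [hcop.gcd_eq_one] at h4
          have h5 : (1 : 𝓞 K) = (p : 𝓞 K) * (Nat.gcdA p ℓ : 𝓞 K) + (ℓ : 𝓞 K) * (Nat.gcdB p ℓ : 𝓞 K) := by
            have := congrArg (Int.cast : ℤ → 𝓞 K) h4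
            push_cast at this
            exact this
          rw [h5]
          exact Ideal.add_mem _ (Ideal.mul_mem_right _ _ (hpu i).1) (Ideal.mul_mem_right _ _ h)
  obtain ⟨W, φ, hW0, hWm, -, hst, hφ⟩ := hfil
  have hN : (1 : ℝ) < (Ideal.absNorm v.asIdeal : ℝ) := by
    have h1 : Ideal.absNorm v.asIdeal ≠ 1 := fun h => v.isPrime.ne_top (Ideal.absNorm_eq_one_iff.1 h)
    have h2 : Ideal.absNorm v.asIdeal ≠ 0 := fun h => v.ne_bot (Ideal.absNorm_eq_zero_iff.1 h)
    exact_mod_cast (by omega : 1 < Ideal.absNorm v.asIdeal)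
  have h1 : Module.End.IsSemisimple (r σ⁻¹) := by
    refine Pool.Agent.X320.FS.ss_filtered (r σ⁻¹) (fun j => ((A j).ρ ℓ σ⁻¹ : Matrix (Fin (n j)) (Fin (n j)) ℚ_[ℓ]))
      W hW0 hWm φ (fun j x hx => hst j _ x hx) (fun j x hx h => ((hφ j x hx).1).1 h)
      (fun j x hx => (hφ j x hx).2 _) (fun j => ?_) (fun i j hij => ?_)
    · exact Pool.Agent.X320.FS.ss_inv (Pool.Agent.X320.KR.val_mul_inv (ρ := (A j).ρ ℓ) σ) ((hv j).2 ℓ hvℓ (hss j) σ hσ)
    · rw [(A i).charpoly ℓ v (hv i).1 hvℓ σ hσ, (A j).charpoly ℓ v (hv j).1 hvℓ σ hσ]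
      refine Pool.Agent.X320.FS.coprime_of_weight (fun h => hij (hw ?_)) ((A i).weight v (hv i).1)
        ((A j).weight v (hv j).1) ℓ
      exact pow_right_injective₀ (by linarith) hN.ne' h
  exact (PerfectField.separable_iff_squarefree).2 h1.minpoly_squarefree

end Pool.Agent.Results.MP_b685ef_ag.MixedReductions
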