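import Pool.Agent.X320.ZL.Mix

/-!
# A zero-one law for the reductions of a complete variety

Let `X` be a complete variety over a number field `K`, `V = H^i(X̄, ℚ̄_ℓ)` and `W 0 ≤ W 1 ≤ ...` the weight
filtration. For almost all places `v` the action of the Frobenius on `H^i` of the reduction `X_v` is the action of
a Frobenius element of `G_K` on `V`. We prove two theorems on arbitrary Galois representations.

**Theorem 1.** Let `A ≤ B ≤ C` be stable subspaces of `V` such that `B / A` and `C / B` are isomorphic to the same
representation `U` of dimension `w`. If `U` is irreducible on all open subgroups, and the Frobenius acts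
semisimply on `C / A` for the `v` in a set of positive upper density, then `C / A` is isomorphic to `U ⊕ U`. If `U`
is only irreducible, the same holds for upper density more than `1 - 1 / (2 w²)`.

So if Q1 holds for a positive proportion of the reductions of `X`, then there is no nontrivial extension of `U` by
itself in the cohomology of `X`. The Frobenius elements detect global extensions.

**Theorem 2.** Suppose that in each weight all composition factors of `V` are isomorphic to one representation `U_j`,
which is irreducible on all open subgroups. Then either the graded pieces of `V` are semisimple Galois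
representations and the Frobenius is semisimple on `H^i (X_v)` for 100 percent of the places `v`, or some graded
piece is not semisimple and the Frobenius is not semisimple for 100 percent of the places `v`.

Proof of Theorem 1: an extension of `U` by `U` is a representation `U + ε c` over the dual numbers. For a semisimple
element `x` the trace of `x` over the dual numbers is a constant, that is, `tr c(x) = 0`. If this holds on a set of
positive measure, it holds on a coset of an open subgroup `H`, by noetherian descent. The span of the image of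
`H` in `M_w (E[ε])` contains `M_w (E)` modulo `ε`, so it is a conjugate of `M_w (E)` or everything; and everything is
impossible as the trace form is nondegenerate. Theorem 2 follows with the zero-one law of `SemisimpleAtAlmostAll`.
-/

set_option autoImplicit false

namespace Pool.Agent.Results.MP_b685ef_ag.ZeroOneReductions

open NumberField IsDedekindDomain Filter Topology Matrix Polynomial
open Pool.Agent.W401.Cheb (GK IsFrob IsInert dens)

section

variable {K E : Type} [Field K] [Field E] {n w : ℕ}

/-- the subspace `A` is stable under the representation `ρ` -/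
def Stable (ρ : GK K →* GL (Fin n) E) (A : Submodule E (Fin n → E)) : Prop :=
  ∀ g, ∀ x ∈ A, (ρ g : Matrix (Fin n) (Fin n) E) *ᵥ x ∈ A

/-- `ρ` is semisimple: every stable subspace has a stable complement -/
def SemisimpleRep (ρ : GK K →* GL (Fin n) E) : Prop := ∀ A, Stable ρ A → ∃ B, Stable ρ B ∧ IsCompl A B

/-- `B / A` is isomorphic to `U`: there is a linear map which is equivariant and surjective on `B`, with
kernel `A` on `B` -/
def IsQuotient (ρ : GK K →* GL (Fin n) E) (U : GK K →* GL (Fin w) E) (A B : Submodule E (Fin n → E)) : Prop :=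
  ∃ f : (Fin n → E) →ₗ[E] (Fin w → E), (∀ x ∈ B, f x = 0 ↔ x ∈ A) ∧ (∀ y, ∃ x ∈ B, f x = y) ∧
    ∀ g, ∀ x ∈ B, f ((ρ g : Matrix (Fin n) (Fin n) E) *ᵥ x) = (U g : Matrix (Fin w) (Fin w) E) *ᵥ f x

/-- The matrices `U h`, `h ∈ H`, span the space of all matrices. By Burnside's theorem this means that `U` is
absolutely irreducible on `H`. -/
def AbsIrreducibleOn (U : GK K →* GL (Fin w) E) (H : Subgroup (GK K)) : Prop :=
  Submodule.span E {X : Matrix (Fin w) (Fin w) E | ∃ h ∈ H, X = (U h : Matrix (Fin w) (Fin w) E)} = ⊤

/-- `U` is nonzero and absolutely irreducible on every open subgroup -/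
def StronglyIrreducible (U : GK K →* GL (Fin w) E) : Prop :=
  0 < w ∧ ∀ H : Subgroup (GK K), IsOpen (H : Set (GK K)) → AbsIrreducibleOn U H

/-- all composition factors of `ρ` are isomorphic to `U` -/
def Isotypic (ρ : GK K →* GL (Fin n) E) (U : GK K →* GL (Fin w) E) : Prop :=
  ∀ A B, Stable ρ A → Stable ρ B → A < B → (∀ X, Stable ρ X → A ≤ X → X ≤ B → X = A ∨ X = B) →
    IsQuotient ρ U A B

/-- the matrix `X` acts semisimply on `C / A`: a polynomial without multiple roots maps `C` to `A` -/
def SemisimpleOn (X : Matrix (Fin n) (Fin n) E) (A C : Submodule E (Fin n → E)) : Prop :=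
  ∃ q : E[X], q.Separable ∧ ∀ x ∈ C, aeval X q *ᵥ x ∈ A

/-- The representation `r` on `V` has a filtration `0 = W 0 ≤ W 1 ≤ ... ≤ W m = V` by stable subspaces such that
`W (j + 1) / W j` is isomorphic to `ρ j`. -/
def HasFiltration {V : Type} [AddCommGroup V] [Module E V] (r : GK K →* Module.End E V) {m : ℕ}
    {n : Fin m → ℕ} (ρ : ∀ j, GK K →* GL (Fin (n j)) E) : Prop :=
  ∃ (W : Fin (m + 1) → Submodule E V) (φ : ∀ j : Fin m, V →ₗ[E] (Fin (n j) → E)),
    W 0 = ⊥ ∧ W (Fin.last m) = ⊤ ∧ (∀ j g, ∀ x ∈ W j, r g x ∈ W j) ∧
    (∀ j : Fin m, ∀ x ∈ W j.succ, (φ j x = 0 ↔ x ∈ W j.castSucc) ∧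
      ∀ g, φ j (r g x) = (ρ j g : Matrix (Fin (n j)) (Fin (n j)) E) *ᵥ φ j x) ∧
    ∀ j : Fin m, ∀ y, ∃ x ∈ W j.succ, φ j x = y

/-- all Frobenius elements at `v` act semisimply: their minimal polynomials have no multiple roots -/
def Good [NumberField K] {V : Type} [AddCommGroup V] [Module E V] (r : GK K →* Module.End E V)
    (v : HeightOneSpectrum (𝓞 K)) : Prop :=
  ∀ σ, IsFrob v σ → (minpoly E (r σ)).Separable

end

/-- Let `E` be a complete ultrametric extension of `ℚ_ℓ`. (1) Let `ρ : G_K → GL_n(E)` be continuous, `A ≤ B ≤ C` stable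
subspaces, `B / A` and `C / B` isomorphic to `U`, and suppose that for the places `v` in a set of upper
density at least `δ` all Frobenius elements at `v` act semisimply on `C / A`. If `δ > 0` and `U` is strongly irreducible,
or `(1 - δ) 2 w² < 1` and `U` is absolutely irreducible, then `C / A` splits. (2) Let `r` have a filtration with graded
pieces `ρ j` which are continuous, unramified outside a finite set `S`, and isotypic of strongly irreducible type, such
that the characteristic polynomials of a Frobenius element outside `S` on different pieces are coprime. Then either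
all `ρ j` are semisimple and the good places have density one, or some `ρ j` is not semisimple and the good places have
density zero. -/
theorem result (K : Type) [Field K] [NumberField K] (ℓ : ℕ) [Fact ℓ.Prime] (E : Type) [NontriviallyNormedField E]
    [CompleteSpace E] [IsUltrametricDist E] [NormedAlgebra ℚ_[ℓ] E] :
    (∀ (n w : ℕ) (ρ : GK K →* GL (Fin n) E) (U : GK K →* GL (Fin w) E), Continuous ρ →
      ∀ A B C : Submodule E (Fin n → E), Stable ρ A → Stable ρ B → Stable ρ C → A ≤ B → B ≤ C →
      IsQuotient ρ U A B → IsQuotient ρ U B C → ∀ δ : ℝ,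
      (∃ᶠ N in atTop, δ ≤ dens (fun v : HeightOneSpectrum (𝓞 K) => ∀ σ, IsFrob v σ →
        SemisimpleOn (ρ σ : Matrix (Fin n) (Fin n) E) A C) N) →
      (0 < δ ∧ StronglyIrreducible U) ∨ ((1 - δ) * (2 * (w : ℝ) ^ 2) < 1 ∧ 0 < w ∧ AbsIrreducibleOn U ⊤) →
      ∃ D, Stable ρ D ∧ D ⊓ B = A ∧ D ⊔ B = C) ∧
    (∀ (m : ℕ) (n d : Fin m → ℕ) (ρ : ∀ j, GK K →* GL (Fin (n j)) E) (U : ∀ j, GK K →* GL (Fin (d j)) E)
      (S : Set (HeightOneSpectrum (𝓞 K))), S.Finite → (∀ j, Continuous (ρ j)) →
      (∀ j, ∀ v ∉ S, ∀ τ, IsInert v τ → ρ j τ = 1) → (∀ j, StronglyIrreducible (U j)) →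
      (∀ j, Isotypic (ρ j) (U j)) →
      (∀ i j, i ≠ j → ∀ v ∉ S, ∀ σ, IsFrob v σ → IsCoprime (ρ i σ : Matrix (Fin (n i)) (Fin (n i)) E).charpoly
        (ρ j σ : Matrix (Fin (n j)) (Fin (n j)) E).charpoly) →
      ∀ (V : Type) [AddCommGroup V] [Module E V] [FiniteDimensional E V] (r : GK K →* Module.End E V),
      HasFiltration r ρ →
      ((∀ j, SemisimpleRep (ρ j)) ∧ Tendsto (dens (Good r)) atTop (𝓝 1)) ∨
      ((∃ j, ¬ SemisimpleRep (ρ j)) ∧ Tendsto (dens (Good r)) atTop (𝓝 0))) := by
  haveI : CharZero E := charZero_of_injective_algebraMap (algebraMap ℚ_[ℓ] E).injective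
  refine ⟨fun n w ρ U hρ A B C hA hB hC hAB hBC h1 h2 δ hG hδ => ?_,
    fun m n d ρ U S hS hρ hI hU hiso hcop V _ _ _ r hfil => ?_⟩
  · exact Pool.Agent.X320.ZL.splits_of hρ hB hC hAB hBC h1 h2 hG (hδ.imp (fun h => h) fun h => ⟨h.1, h.2⟩)
  · obtain ⟨W, φ, hW0, hWm, hst, hφ, hsur⟩ := hfil
    exact Pool.Agent.X320.ZL.mixed (p := ℓ) ρ U hρ hS hI hU hiso hcop r W φ hW0 hWm hst hφ hsur

end Pool.Agent.Results.MP_b685ef_ag.ZeroOneReductions
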